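import Pool.Agent.Helper27.VF.Goals

/-!
# Project VTF: finitely generated virtually torsion-free groups

Only `RnkStmt`, `IndStmt`, `AppStmt` of project VF are replaced.
-/

set_option autoImplicit false

namespace Pool.Agent.Helper55.VTF

open Pool.Agent.Helper27.VF

universe u

/-- The labels of DRA. -/
structure Lam {A : Type u} [Group A] (B : Subgroup A) {Λ : Type u} (lam : A → Λ) : Prop where
  h1 : ∀ b ∈ B, ∀ g g' : A, lam g = lam g' → lam (b * g) = lam (b * g')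
  h2 : ∀ b ∈ B, ∀ g : A, lam (b * g) = lam g → b = 1
  h3 : ∀ x y : A, {q : A ⧸ B | ∃ g : A, (g : A ⧸ B) = q ∧
    lam (g⁻¹ * x) ≠ lam (g⁻¹ * y)}.Finite
  h4 : ∀ b ∈ B, ∀ g : A, g ∉ B → lam (g⁻¹ * b) = lam g⁻¹
  h5 : ∀ b ∈ B, ∀ g : A, g ∉ B → lam b ≠ lam g
  h6 : ∀ x : A, x ∉ B → ∀ y : A, lam y ≠ lam x → lam (x⁻¹ * y) = lam x⁻¹

/-- **LAM.** (May assume `PthStmt`, `OraStmt`, `OrbStmt`, `OrcStmt`, `FrdStmt`.)

Proof. `lam = draLam` of `Pool.Agent.Helper96.VF.DRA`; `h1`-`h4` are proved there (copy); `h5`: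
`inl ≠ inr`. `h6`: if `y ∈ B` this is `h4` (with `g = x`). Let `y ∉ B`, `lam x = inr d`,
`lam x⁻¹ = inr e'`, `d' = tr x e'`. `Inn 1 d.1`, `Inn x d.2`, `Inn x d'.1`, `Inn 1 d'.2`; `corner` for
`d` and `(d'.2, d'.1)` (with `g = 1`, `h = x`) gives `(d.1 ∩ d'.2, d.2 ∪ d'.1) ∈ SS`; it is below `d`
and has `1` on its first side, so it is `d` (`DD`): `d.1 ⊆ d'.2`. As `lam y ≠ inr d`: not
`Inn y d.2`, so `Inn y d.1`, so `Inn y d'.2`, i.e. `Inn (x⁻¹ y) e'.2`. So `x⁻¹ y ∉ B` (ORB (1)) and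
`lam (x⁻¹ y) = inr e'` (uniqueness). -/
def LamStmt : Prop := ∀ (A W : Type u) [Group A] [MulAction A W] (G G₀ : SimpleGraph W) (w : W)
  (p : Ultrafilter W), Stg A G G₀ w p → ∀ k : ℕ, Mn A G p k →
  (∀ (a : A) (n : ℕ), 0 < n → a ^ n = 1 → a = 1) →
  ∃ (Λ : Type u) (lam : A → Λ), Lam (BB A G p k) lam

/-- **ADJ.** A closest coset.

Proof. For `x ∉ B` let `Btw x` be the set of cosets `gB`, `g ∉ B`, `g ∉ xB`, with
`lam g⁻¹ ≠ lam (g⁻¹ x)` (does not depend on the choice of `g`, `h1`); finite by `h3` (with `y = 1`).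
Take `x ∉ B` with `Btw x` of smallest size. If `gB ∈ Btw x`, then `Btw g ⊂ Btw x` strictly
(`gB ∉ Btw g`): let `hB ∈ Btw g`. If `h ∉ xB` and `lam h⁻¹ = lam (h⁻¹ x)`, both are `≠ lam (h⁻¹ g)`, so
by `h6` for `X = h⁻¹ g ∉ B` and `Y = h⁻¹ x`, `Y = h⁻¹`: `lam (g⁻¹ x) = lam (g⁻¹ h) = lam g⁻¹`,
contradiction. If `h = x b`: by `h1` `lam x⁻¹ ≠ lam (x⁻¹ g)`, `h6` for `X = x⁻¹ g ∉ B`, `Y = x⁻¹`:
`lam g⁻¹ = lam (g⁻¹ x)`, contradiction. -/
def AdjStmt : Prop := ∀ (A : Type u) [Group A] (B : Subgroup A) (Λ : Type u) (lam : A → Λ),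
  Lam B lam → B ≠ ⊤ →
  ∃ x : A, x ∉ B ∧ ∀ g : A, g ∉ B → x⁻¹ * g ∉ B → lam g⁻¹ = lam (g⁻¹ * x)

/-- Many derivations which vanish on `B`. -/
def DV {A : Type u} [Group A] (B : Subgroup A) (x : A) : Prop :=
  (∀ (M : Type u) [AddCommGroup M] [DistribMulAction A M] (v : M),
    ∃ δ : A → M, IsDer δ ∧ (∀ b ∈ B, δ b = 0) ∧ δ x = v) ∨
  ∃ g : A, g ≠ 1 ∧ ∀ (M : Type u) [AddCommGroup M] [DistribMulAction A M] (v : M),
    ∃ δ : A → M, IsDer δ ∧ (∀ b ∈ B, δ b = 0) ∧ δ x = v - g • v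

/-- **DVX.**

Proof. `C g = b v` if `lam g = lam (b x)` with `b ∈ B` (`b` is unique by `h2`), `C g = 0` otherwise.
`C (b g) = b C g`, `C` depends only on `lam g`, `C = 0` on `B` (`h5`). `E g y = g C (g⁻¹ y)` depends
only on the coset `g B`. `δ y = ∑ᶠ over the cosets of (E g y - E g 1)`, finite by `h3`; a derivation
as in the proof of DER (`Pool.Agent.Helper38.VF.Der`, with `f = 0`). `δ b = C b - C 1 = 0` (only the
coset `B` contributes by `h4`). `δ x`: for `g ∉ B`, `g ∉ x B` the term is `0` by the hypothesis on `x`;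
the coset `B` gives `C x - C 1 = v`, the coset `x B` (different from `B`) gives
`x C 1 - x C x⁻¹ = - x C x⁻¹`, which is `0` or `- x b v` with `x b ≠ 1`. -/
def DvxStmt : Prop := ∀ (A : Type u) [Group A] (B : Subgroup A) (Λ : Type u) (lam : A → Λ),
  Lam B lam → ∀ x : A, x ∉ B →
  (∀ g : A, g ∉ B → x⁻¹ * g ∉ B → lam g⁻¹ = lam (g⁻¹ * x)) → DV B x

/-- The Hilbert space `ℓ² A` with the two translations, what we need of it. -/
structure L2 (A : Type u) [Group A] where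
  M : Type u
  [n : NormedAddCommGroup M]
  [i : InnerProductSpace ℝ M]
  [c : CompleteSpace M]
  [d : DistribMulAction A M]
  /-- right translations -/
  R : A → M →L[ℝ] M
  e : M
  cont : ∀ g : A, ∃ L : M →L[ℝ] M, ∀ v, L v = g • v
  comm : ∀ (g h : A) (v : M), R h (g • v) = g • R h v
  one : ∀ v, R 1 v = v
  mul : ∀ g h v, R (g * h) v = R g (R h v)
  iso : ∀ g v w, inner ℝ (R g v) (R g w) = inner ℝ v w
  orth : Orthonormal ℝ fun g => R g e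
  span : (Submodule.span ℝ (Set.range fun g => R g e)).topologicalClosure = ⊤
  dens : ∀ g : A, (∀ n : ℕ, 0 < n → g ^ n ≠ 1) → DenseRange fun v : M => v - g • v

attribute [instance] L2.n L2.i L2.c L2.d

/-- **L2M.** The space exists.

Proof. `M = lp (fun _ : A => ℝ) 2`, `(g f) a = f (g⁻¹ a)`, `(R h f) a = f (a h)`, `e` = the function
`1` at `1` (`lp.single`). `dens`: the range is a subspace; a vector `f` orthogonal to it satisfies
`g⁻¹ f = f`, so is constant on the infinite sets `{g ^ n a}`, and square summable, so `f = 0`. -/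
def L2MStmt : Prop := ∀ (A : Type u) [Group A], Nonempty (L2 A)

/-- **TRC.** The trace.

Proof. `⟪S (T e), e⟫ = ⟪T e, S† e⟫ = ∑_g ⟪T e, R g e⟫ ⟪R g e, S† e⟫` (`HilbertBasis`)
`= ∑_g ⟪T e, R g e⟫ ⟪S (R g e), e⟫ = ∑_g ⟪R g⁻¹ T e, e⟫ ⟪S e, R g⁻¹ e⟫
= ∑_g ⟪T (R g⁻¹ e), e⟫ ⟪S e, R g⁻¹ e⟫ = ∑_g ⟪R g⁻¹ e, T† e⟫ ⟪S e, R g⁻¹ e⟫ = ⟪S e, T† e⟫`. -/
def TrcStmt : Prop := ∀ (A : Type u) [Group A] (X : L2 A) (S T : X.M →L[ℝ] X.M),
  (∀ h v, S (X.R h v) = X.R h (S v)) → (∀ h v, T (X.R h v) = X.R h (T v)) →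
  inner ℝ (S (T X.e)) X.e = inner ℝ (T (S X.e)) X.e

/-- **REG.** Regularized inverses, abstract Hilbert spaces.

Proof. `K = (E E† + t)⁻¹` for a small `t > 0` (exists: `E E† + t` is coercive, Lax-Milgram
`IsCoercive.continuousLinearEquivOfBilin`, or positivity of the spectrum). (1) `u = K E v`:
`E E† u + t u = E v`, so `‖E† u‖² + t ‖u‖² = ⟪E v, u⟫ = ⟪v, E† u⟫ ≤ ‖v‖ ‖E† u‖`, so `‖E† u‖ ≤ ‖v‖` and
`⟪E† K E v, v⟫ ≤ ‖v‖²`. (2) `E E† K f = f - t K f`; `‖t K‖ ≤ 1`, and `t K f → 0` for `f = E E† y`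
(`t K E E† y = t y - t (t K) y`), so for all `f`, as `E E†` has dense range (it is self-adjoint and
injective: `E†` is injective as `E` has dense range). Finitely many `f`. (3) clear. -/
def RegStmt : Prop := ∀ (V W : Type u) [NormedAddCommGroup V] [InnerProductSpace ℝ V]
  [CompleteSpace V] [NormedAddCommGroup W] [InnerProductSpace ℝ W] [CompleteSpace W]
  (E : V →L[ℝ] W), DenseRange E → ∀ (n : ℕ) (f : Fin n → W) (η : ℝ), 0 < η →
  ∃ K : W →L[ℝ] W,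
    (∀ v : V, inner ℝ (ContinuousLinearMap.adjoint E (K (E v))) v ≤ ‖v‖ ^ 2) ∧
    (∀ i, ‖f i‖ ^ 2 - η ≤ inner ℝ (E (ContinuousLinearMap.adjoint E (K (f i)))) (f i)) ∧
    ∀ U : W →L[ℝ] W, (∀ x, U (E (ContinuousLinearMap.adjoint E x)) =
      E (ContinuousLinearMap.adjoint E (U x))) → ∀ x, U (K x) = K (U x)

/-- **L2R.** The rank inequality. (May assume `TrcStmt`, `RegStmt`.)

Proof. `V = PiLp 2 (fun _ : Fin m => M)`, `W = PiLp 2 (fun _ : Fin n => M)`, `E` the operator with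
matrix `F`, dense range. `R h` acts on `V` and `W` coordinatewise, is unitary with inverse `R h⁻¹`,
commutes with `E`, so with `E†`, so with `K` of REG (for `f i = e` in coordinate `i`, `n η < 1`).
The entries of `E`, `E†`, `K` commute with the `R h` on `M`. With `τ T = ⟪T e, e⟫`:
`n (1 - η) ≤ ∑_i τ ((E (E† K))_ii) = ∑_i ∑_j τ (E_ij (E† K)_ji) = ∑_j ∑_i τ ((E† K)_ji E_ij)
= ∑_j τ ((E† K E)_jj) ≤ m`. -/
def L2RStmt : Prop := ∀ (A : Type u) [Group A] (X : L2 A) (m n : ℕ)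
  (F : Fin n → Fin m → (X.M →L[ℝ] X.M)), (∀ i j h v, F i j (X.R h v) = X.R h (F i j v)) →
  (∀ (w : Fin n → X.M) (ε : ℝ), 0 < ε → ∃ y : Fin m → X.M,
    ∀ i, ‖(∑ j, F i j (y j)) - w i‖ < ε) → n ≤ m

/-- **FOX.** Values of derivations.

Proof. Induction on words (`Subgroup.closure_induction`): `δ 1 = 0`, `δ (x y) = δ x + x • δ y`,
`δ x⁻¹ = - x⁻¹ • δ x`; use `cont` and `comm`. -/
def FoxStmt : Prop := ∀ (A : Type u) [Group A] (X : L2 A) (m : ℕ) (s : Fin m → A),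
  Subgroup.closure (Set.range s) = ⊤ → ∀ x : A, ∃ F : Fin m → (X.M →L[ℝ] X.M),
    (∀ j h v, F j (X.R h v) = X.R h (F j v)) ∧
    ∀ δ : A → X.M, IsDer δ → δ x = ∑ j, F j (δ (s j))

/-- The invariant of the induction. -/
def Inv {A₀ : Type u} [Group A₀] (X : L2 A₀) (n : ℕ) (A : Type u) [Group A] (j : A →* A₀) :
    Prop :=
  Function.Injective j ∧
  (∀ f : A → X.M, (∀ a b, f (a * b) = f a + j a • f b) →
    ∃ δ : A₀ → X.M, IsDer δ ∧ ∀ a, δ (j a) = f a) ∧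
  ∃ x : Fin n → A₀, ∀ (w : Fin n → X.M) (ε : ℝ), 0 < ε →
    ∃ δ : A₀ → X.M, IsDer δ ∧ (∀ a : A, δ (j a) = 0) ∧ ∀ i, ‖δ (x i) - w i‖ < ε

/-- **BND.** (May assume `L2RStmt`, `FoxStmt`.)

Proof. FOX for the `x i` gives `F i j`; L2R, with `y j = δ (s j)`. -/
def BndStmt : Prop := ∀ (A₀ : Type u) [Group A₀] (X : L2 A₀) (m : ℕ) (s : Fin m → A₀),
  Subgroup.closure (Set.range s) = ⊤ → ∀ (n : ℕ) (A : Type u) [Group A] (j : A →* A₀),
  Inv X n A j → n ≤ m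

/-- **STP.** The step.

Proof. `M` is an `A`-module through `j` (`DistribMulAction.compHom`). Extension: `B → A → A₀`.
Density: `x' = Fin.snoc x (j y)`, `DV B y`. Given `w`: choose `v` with `‖v - w_n‖ < ε` or
`‖v - j g • v - w_n‖ < ε` (`dens`: `j g ≠ 1` has infinite order), `δ_v : A → M` with `δ_v = 0` on `B`
and this value at `y`, extend it to `A₀` (second part of `Inv`), and correct the other values by the
third part of `Inv` (these derivations vanish on `A`). -/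
def StpStmt : Prop := ∀ (A₀ : Type u) [Group A₀] (X : L2 A₀),
  (∀ (a : A₀) (n : ℕ), 0 < n → a ^ n = 1 → a = 1) →
  ∀ (n : ℕ) (A : Type u) [Group A] (j : A →* A₀), Inv X n A j → ∀ B : Subgroup A,
  (∀ (M : Type u) [AddCommGroup M] [DistribMulAction A M] (f : B → M), IsDerOn B f →
    ∃ δ : A → M, IsDer δ ∧ ∀ b : B, δ b = f b) →
  (∃ y : A, DV B y) → Inv X (n + 1) B (j.comp B.subtype)

/-- **IND2.** The induction. (May assume `DraStmt`, `LamStmt`, `AdjStmt`, `DvxStmt`, `L2MStmt`,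
`StpStmt`, `BndStmt`, `TofStmt`, `OrbStmt`.)

Proof. `X` from L2M for `A₀ = A`, `s` generators, `m` of them. By induction on `d`: if
`n + d = m + 1`, `Inv X n A' j` and `Stg A' G G₀ w p`, then `Con A' G p`. `d = 0`: BND. Step: as in
`Pool.Agent.Helper56.VF.ind`; `A'` is torsion-free as `j` is injective; `Inv X (n + 1) BB _` by STP.
Start: `Inv X 0 A id`. -/
def Ind2Stmt : Prop := ∀ (A W : Type u) [Group A] [MulAction A W] (G G₀ : SimpleGraph W)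
  (w : W) (p : Ultrafilter W), Group.FG A → (∀ (a : A) (n : ℕ), 0 < n → a ^ n = 1 → a = 1) →
  Stg A G G₀ w p → Con A G p

/-- **APP2.** Virtually torsion-free groups. (May assume `Ind2Stmt`, `KndStmt`.)

Proof. As `AppStmt` (`Pool.Agent.Helper58.VF.APP`, `Pool.Agent.Helper54.VF.APP`): `A` is finitely
generated as it has finite index. -/
def App2Stmt : Prop := ∀ (Γ : Type u) [Group Γ], Group.FG Γ →
  (∃ A : Subgroup Γ, A.FiniteIndex ∧ ∀ a ∈ A, ∀ n : ℕ, 0 < n → a ^ n = 1 → a = 1) →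
  ∀ S : Set Γ, Subgroup.closure S = ⊤ → (∀ s ∈ S, s⁻¹ ∈ S) → (1 : Γ) ∉ S → S.Infinite →
  ∃ φ : ℕ → Set Γ,
    (∀ i, ((SimpleGraph.fromRel fun a b : Γ => a⁻¹ * b ∈ S).induce (φ i)).Connected) ∧
    (∀ i j, i ≠ j → Disjoint (φ i) (φ j)) ∧
    ∀ i j, i ≠ j → ∃ a ∈ φ i, ∃ b ∈ φ j,
      (SimpleGraph.fromRel fun a b : Γ => a⁻¹ * b ∈ S).Adj a b

end Pool.Agent.Helper55.VTF
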